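import Mathlib
import Pool.Graph.R_pool_sql_team_seeded_2aa45f1a.Q148.BM.TensLe

/-!
# Propagation of zeros along one box steps
-/

set_option autoImplicit false
set_option linter.unusedSectionVars false

namespace Pool.Agent.H10.OT

open Q148.BM Finset

variable {J : Type*} [Fintype J] [DecidableEq J] {d : ℕ} {T : Type*}

theorem alt_coll {A : Type*} [AddCommGroup A] (E : HT J d → A) {l : HT J d} {j : J} {a b : Fin d}
    (hab : a ≠ b) (h : l j a = l j b) : alt E l = 0 := by
  refine alt_eq_zero E fun w hw => ?_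
  exfalso
  have h1 : (w j).symm a ≠ (w j).symm b := fun h2 => hab ((w j).symm.injective h2)
  have h2 := (hw j).injective.ne h1
  simp only [Equiv.apply_symm_apply] at h2
  exact h2 h

/-- a coordinate raised by one: the weight is regular or has two equal coordinates -/
theorem reg_or_coll {l : HT J d} (hl : Reg l) (j : J) (m : Fin d) :
    Reg (l + bump j {m} 1) ∨ ∃ a, a ≠ m ∧ (l + bump j {m} 1) j a = (l + bump j {m} 1) j m := by
  by_cases h : ∃ a, a ≠ m ∧ (l + bump j {m} 1) j a = (l + bump j {m} 1) j m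
  · exact Or.inr h
  · left
    push Not at h
    intro i a b hab
    have h1 := hl i hab
    by_cases hi : i = j
    · subst hi
      by_cases hb : b = m
      · subst hb
        have h2 := h a hab.ne
        simp only [Pi.add_apply, bump, mem_singleton, true_and, if_neg hab.ne, if_true, add_zero] at h2 ⊢
        omega
      · by_cases ha : a = m
        · subst ha
          simp only [Pi.add_apply, bump, mem_singleton, true_and, if_neg hb, if_true, add_zero]
          omega
        · simp only [Pi.add_apply, bump, mem_singleton, true_and, if_neg hb, if_neg ha, add_zero]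
          exact h1
    · simp only [Pi.add_apply, bump, hi, false_and, if_false, add_zero]
      exact h1

theorem alt_step_nonneg {E : HT J d → ℤ} (hE : ∀ l, Reg l → 0 ≤ E l) {l : HT J d} (hl : Reg l)
    (j : J) (m : Fin d) : 0 ≤ alt E (l + bump j {m} 1) := by
  rcases reg_or_coll hl j m with h | ⟨a, ha, h⟩
  · rw [alt_of_reg _ h]
    exact hE _ h
  · rw [alt_coll E ha h]

/-- the zero propagates -/
theorem up {E : HT J d → ℤ} (hE : ∀ l, Reg l → 0 ≤ E l) {l : HT J d} (hl : Reg l) (j : J)
    (m : Fin d) (hr : Reg (l + bump j {m} 1))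
    (h : ∑ s, alt E (l + bump j {s} 1) ≤ 0) : E (l + bump j {m} 1) = 0 := by
  refine le_antisymm ?_ (hE _ hr)
  have h1 : alt E (l + bump j {m} 1) ≤ ∑ s, alt E (l + bump j {s} 1) :=
    single_le_sum (f := fun s => alt E (l + bump j {s} 1))
      (fun s _ => alt_step_nonneg hE hl j s) (mem_univ m)
  rw [alt_of_reg _ hr] at h1
  exact h1.trans h

/-- the differences of the coordinates are at least `C j` at the embedding `j` -/
def Gap (C : J → ℤ) (l : HT J d) : Prop := ∀ j, ∀ a b : Fin d, a < b → C j ≤ l j a - l j b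

theorem Gap.reg {C : J → ℤ} (hC : ∀ j, 1 ≤ C j) {l : HT J d} (h : Gap C l) : Reg l := by
  intro j a b hab
  have := h j a b hab
  have := hC j
  omega

theorem Gap.cst {C : J → ℤ} {l : HT J d} (h : Gap C l) (c : J → ℤ) : Gap C (l + Q148.BM.cst c) := by
  intro j a b hab
  have := h j a b hab
  simp only [Pi.add_apply, Q148.BM.cst]
  linarith

/-- the weight `l'` is obtained from `l` by lowering one coordinate at the embedding `j` by one, its gaps are
at least `C`, and it is bounded below by `l₀` -/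
def Lower (C : J → ℤ) (l₀ l : HT J d) (j : J) (l' : HT J d) : Prop :=
  Gap C l' ∧ (∀ i s, l₀ i s ≤ l' i s) ∧ ∃ m, l = l' + bump j {m} 1

theorem exists_lower {C : J → ℤ} {l₀ l : HT J d} (h₀ : Gap C l₀) (hl : Gap C l)
    (hle : ∀ i s, l₀ i s ≤ l i s) (hne : l ≠ l₀) : ∃ j l', Lower C l₀ l j l' := by
  classical
  obtain ⟨j, hj⟩ : ∃ j, l j ≠ l₀ j := by
    by_contra h
    push Not at h
    exact hne (funext h)
  have hS : (univ.filter fun s => l₀ j s < l j s).Nonempty := by
    by_contra h
    rw [not_nonempty_iff_eq_empty, filter_eq_empty_iff] at h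
    refine hj (funext fun s => le_antisymm ?_ (hle j s))
    exact not_lt.1 (h (mem_univ s))
  set m := (univ.filter fun s => l₀ j s < l j s).max' hS with hm
  have hm1 : l₀ j m < l j m := (mem_filter.1 (max'_mem _ hS)).2
  have hm2 : ∀ s, m < s → l j s = l₀ j s := by
    intro s hs
    refine le_antisymm ?_ (hle j s)
    by_contra h
    have := le_max' (univ.filter fun s => l₀ j s < l j s) s (mem_filter.2 ⟨mem_univ _, not_le.1 h⟩)
    exact absurd hs (not_lt.2 this)
  refine ⟨j, l - bump j {m} 1, ?_, ?_, m, by simp⟩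
  · intro i a b hab
    have h1 := hl i a b hab
    by_cases hi : i = j
    · subst hi
      by_cases ha : a = m
      · subst ha
        have h2 := hm2 b hab
        have h3 := h₀ i _ b hab
        simp only [Pi.sub_apply, bump, mem_singleton, true_and, if_neg hab.ne', if_true, sub_zero]
        omega
      · by_cases hb : b = m
        · subst hb
          simp only [Pi.sub_apply, bump, mem_singleton, true_and, if_neg hab.ne, if_true, sub_zero]
          omega
        · simp only [Pi.sub_apply, bump, mem_singleton, true_and, if_neg hb, if_neg ha, sub_zero]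
          exact h1
    · simp only [Pi.sub_apply, bump, hi, false_and, if_false, sub_zero]
      exact h1
  · intro i s
    by_cases h : i = j ∧ s = m
    · obtain ⟨rfl, rfl⟩ := h
      simp only [Pi.sub_apply, bump, mem_singleton, and_self, if_true]
      omega
    · simp only [Pi.sub_apply, bump, mem_singleton, if_neg h, sub_zero]
      exact hle i s

/-- the weight `l`, bounded below by `l₀`, agrees with `l₀` at one coordinate of every embedding -/
def Norm (l₀ l : HT J d) : Prop := (∀ i s, l₀ i s ≤ l i s) ∧ ∀ i, ∃ s, l i s = l₀ i s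

theorem Lower.norm {C : J → ℤ} {l₀ l l' : HT J d} {j : J} (h : Lower C l₀ l j l') (hn : Norm l₀ l) :
    Norm l₀ l' := by
  obtain ⟨-, h2, m, rfl⟩ := h
  refine ⟨h2, fun i => ?_⟩
  obtain ⟨s, hs⟩ := hn.2 i
  refine ⟨s, le_antisymm ?_ (h2 i s)⟩
  have : (0 : ℤ) ≤ (bump j {m} 1 : HT J d) i s := by
    unfold bump
    split_ifs <;> norm_num
  simp only [Pi.add_apply] at hs
  omega

/-- the number of boxes between `l₀` and `l` -/
theorem sum_bump_one (j : J) (m : Fin d) : ∑ i, ∑ s, (bump j {m} 1 : HT J d) i s = 1 := by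
  unfold bump
  rw [sum_eq_single j]
  · simp
  · intro i _ hi
    simp [hi]
  · simp

theorem size_bump (l₀ l' : HT J d) (j : J) (m : Fin d) :
    ∑ i, ∑ s, ((l' + bump j {m} 1 : HT J d) i s - l₀ i s) = ∑ i, ∑ s, (l' i s - l₀ i s) + 1 := by
  have h : ∑ i, ∑ s, ((l' + bump j {m} 1 : HT J d) i s - l₀ i s) =
      ∑ i, ∑ s, (l' i s - l₀ i s) + ∑ i, ∑ s, (bump j {m} 1 : HT J d) i s := by
    simp only [← sum_add_distrib]
    refine sum_congr rfl fun i _ => sum_congr rfl fun s _ => ?_
    simp only [Pi.add_apply]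
    ring
  rw [h, sum_bump_one]

theorem eq_of_size {l₀ l : HT J d} (hle : ∀ i s, l₀ i s ≤ l i s) (h : ∑ i, ∑ s, (l i s - l₀ i s) = 0) :
    l = l₀ := by
  have h1 : ∀ i ∈ univ, ∑ s, (l i s - l₀ i s) = 0 := by
    refine (sum_eq_zero_iff_of_nonneg fun i _ => sum_nonneg fun s _ => ?_).1 h
    exact sub_nonneg.2 (hle i s)
  funext i s
  have h3 := (sum_eq_zero_iff_of_nonneg (fun s _ => sub_nonneg.2 (hle i s))).1 (h1 i (mem_univ _)) s
    (mem_univ _)
  linarith

theorem size_nonneg {l₀ l : HT J d} (hle : ∀ i s, l₀ i s ≤ l i s) : 0 ≤ ∑ i, ∑ s, (l i s - l₀ i s) :=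
  sum_nonneg fun i _ => sum_nonneg fun s _ => sub_nonneg.2 (hle i s)

/-- induction over the weights above `l₀` -/
theorem norm_induction {C : J → ℤ} {l₀ : HT J d} (P : HT J d → Prop) (hP : P l₀)
    (hstep : ∀ l, Gap C l → Norm l₀ l → l ≠ l₀ → ∃ j l', Lower C l₀ l j l' ∧ (P l' → P l)) :
    ∀ l, Gap C l → Norm l₀ l → P l := by
  have key : ∀ n : ℕ, ∀ l, Gap C l → Norm l₀ l → (∑ i, ∑ s, (l i s - l₀ i s)) = n → P l := by
    intro n
    induction n with
    | zero =>
      intro l hl hn h
      rw [eq_of_size hn.1 (by simpa using h)]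
      exact hP
    | succ n ih =>
      intro l hl hn h
      have hne : l ≠ l₀ := by
        rintro rfl
        simp at h
        omega
      obtain ⟨j, l', hlow, himp⟩ := hstep l hl hn hne
      refine himp (ih l' hlow.1 (hlow.norm hn) ?_)
      obtain ⟨-, -, m, rfl⟩ := hlow
      rw [size_bump] at h
      push_cast at h
      linarith
  intro l hl hn
  refine key (∑ i, ∑ s, (l i s - l₀ i s)).toNat l hl hn ?_
  rw [Int.toNat_of_nonneg (size_nonneg hn.1)]

/-- every weight is a normalized one up to a constant -/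
theorem exists_norm (hd : 0 < d) (l₀ l : HT J d) : ∃ c : J → ℤ, Norm l₀ (l + Q148.BM.cst c) := by
  classical
  have hne : (univ : Finset (Fin d)).Nonempty := ⟨⟨0, hd⟩, mem_univ _⟩
  refine ⟨fun i => univ.sup' hne fun s => l₀ i s - l i s, fun i s => ?_, fun i => ?_⟩
  · have := le_sup' (fun s => l₀ i s - l i s) (mem_univ s)
    simp only [Pi.add_apply, Q148.BM.cst]
    linarith
  · obtain ⟨s, -, hs⟩ := exists_mem_eq_sup' hne fun s => l₀ i s - l i s
    refine ⟨s, ?_⟩
    simp only [Pi.add_apply, Q148.BM.cst]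
    rw [hs]
    ring

/-- the set of the weights at which `D` vanishes for all types is stable under twists -/
theorem shift {τ : J → T ≃ T} {D : T → HT J d → ℤ} (hD : TwistTA τ D) {l : HT J d} (hl : Reg l)
    (c : J → ℤ) (h : ∀ t, D t (l + Q148.BM.cst c) = 0) : ∀ t, D t l = 0 := by
  have hr : Reg (l + Q148.BM.cst c) := (reg_add_cst l c).2 hl
  have h1 : alt (togT D) (l + Q148.BM.cst c) = 0 := by
    rw [alt_of_reg _ hr]
    funext t
    exact h t
  have h2 := const_allT hD (l + Q148.BM.cst c) h1 (fun j => - c j)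
  have e : (l + Q148.BM.cst c + Q148.BM.cst (fun j => - c j) : HT J d) = l := by
    funext j s
    simp [Q148.BM.cst]
  rw [e, alt_of_reg _ hl] at h2
  intro t
  exact congrFun h2 t

/-- **Propagation.** -/
theorem everywhere (hd : 0 < d) {C : J → ℤ} (hC : ∀ j, 1 ≤ C j) {τ : J → T ≃ T} {D : T → HT J d → ℤ}
    (hD : TwistTA τ D) {l₀ : HT J d} (h0 : ∀ t, D t l₀ = 0)
    (hstep : ∀ l, Gap C l → Norm l₀ l → l ≠ l₀ → ∃ j l', Lower C l₀ l j l' ∧
      ((∀ t, D t l' = 0) → ∀ t, D t l = 0)) : ∀ t l, Gap C l → D t l = 0 := by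
  intro t l hl
  obtain ⟨c, hc⟩ := exists_norm hd l₀ l
  refine shift hD (hl.reg hC) c ?_ t
  exact norm_induction (fun l => ∀ t, D t l = 0) h0 hstep _ (hl.cst c) hc

end Pool.Agent.H10.OT
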