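import Mathlib
import Pool.Agent.H10.OT.Prop

/-!
# Defects: from cycles to the differences with the predicted cycles
-/

set_option autoImplicit false

namespace Pool.Agent.H10.OT

open Q148.BM Finset

variable {J : Type*} [Fintype J] [DecidableEq J] {d : ℕ} {T : Type*} {W : Type*} [Fintype W]

theorem sum_one {A : Type*} [AddCommGroup A] (f : Finset (Fin d) → A) :
    ∑ S ∈ powersetCard 1 (univ : Finset (Fin d)), f S = ∑ m, f {m} := by
  rw [powersetCard_one, sum_map]
  rfl

/-- Pieri's rule for one box -/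
theorem one_box {A : Type*} [AddCommGroup A] {c : J → ℕ → T → (T →₀ ℤ)} (hd : 0 < d)
    {N : T → HT J d → A} (hN : TensRel d c N) (t : T) (j : J) {l : HT J d} (hl : Reg l) :
    ∑ m, alt (N t) (l + bump j {m} 1) = (c j 1 t).sum fun t' a => a • N t' l := by
  have h := hN t j 1 le_rfl hd l
  rw [sum_one] at h
  rw [h]
  exact Finset.sum_congr rfl fun t' _ => by
    beta_reduce
    rw [alt_of_reg _ hl]

/-- the differences satisfy the one-sided relation -/
theorem diff_step {c : J → ℕ → T → (T →₀ ℤ)} (hd : 0 < d) {N Z : T → HT J d → ℤ} (hN : TensRel d c N)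
    (t : T) (j : J) {l : HT J d} (hl : Reg l)
    (h : ∑ m, alt (Z t) (l + bump j {m} 1) ≤ (c j 1 t).sum fun t' a => a * Z t' l) :
    ∑ m, alt (fun l => Z t l - N t l) (l + bump j {m} 1) ≤
      (c j 1 t).sum fun t' a => a * (Z t' l - N t' l) := by
  have h1 := one_box hd hN t j hl
  simp only [alt_sub, sum_sub_distrib]
  rw [h1]
  have h2 : ((c j 1 t).sum fun t' a => a * (Z t' l - N t' l)) =
      ((c j 1 t).sum fun t' a => a * Z t' l) - (c j 1 t).sum fun t' a => a • N t' l := by
    simp only [Finsupp.sum, smul_eq_mul, ← sum_sub_distrib, mul_sub]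
  rw [h2]
  linarith

variable [Fintype T]

/-- Pieri's rule for one box and the total cycle -/
theorem tot_box {c : J → ℕ → T → (T →₀ ℤ)} (hd : 0 < d) {N : T → HT J d → ℤ} (hN : TensRel d c N)
    {w : T → ℤ} (j : J) (hw : ∀ t', ∑ t, w t * c j 1 t t' = d * w t') {l : HT J d} (hl : Reg l) :
    ∑ m, alt (fun l => ∑ t, w t * N t l) (l + bump j {m} 1) = d * ∑ t, w t * N t l := by
  have h1 : ∀ m, alt (fun l => ∑ t, w t * N t l) (l + bump j {m} 1) =
      ∑ t, w t * alt (N t) (l + bump j {m} 1) := by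
    intro m
    rw [alt_sum]
    refine sum_congr rfl fun t _ => ?_
    have := alt_map (AddMonoidHom.mulLeft (w t)) (N t) (l + bump j {m} 1)
    simpa using this
  simp only [h1]
  rw [sum_comm]
  simp only [← mul_sum]
  have h2 : ∀ t, ∑ m, alt (N t) (l + bump j {m} 1) = ∑ t', c j 1 t t' * N t' l := by
    intro t
    rw [one_box hd hN t j hl]
    rw [Finsupp.sum_fintype _ _ (by simp)]
    simp
  simp only [h2, mul_sum]
  rw [sum_comm]
  refine sum_congr rfl fun t' _ => ?_
  simp only [← mul_assoc]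
  rw [← sum_mul, hw]

/-- the total difference -/
theorem tot_diff {c : J → ℕ → T → (T →₀ ℤ)} (hd : 0 < d) {N Z : T → HT J d → ℤ} (hN : TensRel d c N)
    {w : T → ℤ} (j : J) (hw : ∀ t', ∑ t, w t * c j 1 t t' = d * w t') {l : HT J d} (hl : Reg l)
    (h : ∑ m, alt (fun l => ∑ t, w t * Z t l) (l + bump j {m} 1) ≤ d * ∑ t, w t * Z t l) :
    ∑ m, alt (fun l => ∑ t, w t * (Z t l - N t l)) (l + bump j {m} 1) ≤
      d * ∑ t, w t * (Z t l - N t l) := by
  have h1 := tot_box hd hN j hw hl
  have h2 : ∀ l, ∑ t, w t * (Z t l - N t l) = ∑ t, w t * Z t l - ∑ t, w t * N t l := by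
    intro l
    simp only [mul_sub, sum_sub_distrib]
  simp only [h2, alt_sub, sum_sub_distrib]
  rw [h1]
  linarith

end Pool.Agent.H10.OT
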